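import Pool.Agent.Q195.BE3

set_option autoImplicit false

namespace Pool.Agent.Results.MP_b3b95b_an.DenseSum

/-- Every strictly bounded minimal sequence in a separable Banach space has bounded extensions of its
associated functionals whose common kernel together with the closed span of the sequence spans a
dense subspace. -/
theorem result (𝕜 : Type) [RCLike 𝕜] (E : Type) [NormedAddCommGroup E] [NormedSpace 𝕜 E]
    [CompleteSpace E] [TopologicalSpace.SeparableSpace E] (x : ℕ → E)
    (φ : ℕ → (Submodule.span 𝕜 (Set.range x)).topologicalClosure →L[𝕜] 𝕜)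
    (hφ : ∀ i j, ∀ v : (Submodule.span 𝕜 (Set.range x)).topologicalClosure, (v : E) = x j →
      φ i v = if i = j then 1 else 0)
    (C D : ℝ) (_hx : ∀ n, ‖x n‖ ≤ C) (hD : ∀ n, ‖φ n‖ ≤ D) :
    ∃ f : ℕ → (E →L[𝕜] 𝕜),
      (∀ n, ∀ v : (Submodule.span 𝕜 (Set.range x)).topologicalClosure, f n v = φ n v) ∧
      (∃ M : ℝ, ∀ n, ‖f n‖ ≤ M) ∧
      ((Submodule.span 𝕜 (Set.range x)).topologicalClosure ⊔
        ⨅ n, LinearMap.ker (f n).toLinearMap).topologicalClosure = ⊤ := by
  choose g hg hgn using fun n => exists_extension_norm_eq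
    (Submodule.span 𝕜 (Set.range x)).topologicalClosure (φ n)
  have hbi : ∀ i j, g i (x j) = if i = j then 1 else 0 := by
    intro i j
    have hj : x j ∈ (Submodule.span 𝕜 (Set.range x)).topologicalClosure :=
      Submodule.le_topologicalClosure _ (Submodule.subset_span ⟨j, rfl⟩)
    rw [← hφ i j ⟨x j, hj⟩ rfl]
    exact hg i ⟨x j, hj⟩
  obtain ⟨f, y, h, hfn, hfX, hfy, -, -, -, hdense⟩ :=
    Pool.Agent.Q195.BE.core x g D hbi (fun n => (hgn n).trans_le (hD n))
  refine ⟨f, ?_, ⟨2 * D + 2, hfn⟩, ?_⟩
  · intro n v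
    rw [← hg n v]
    have hcl : IsClosed {v : E | f n v = g n v} := isClosed_eq (f n).continuous (g n).continuous
    have hsub : (Submodule.span 𝕜 (Set.range x) : Set E) ⊆ {v : E | f n v = g n v} :=
      fun v hv => hfX n v hv
    exact closure_minimal hsub hcl v.2
  · rw [eq_top_iff, ← hdense]
    apply Submodule.topologicalClosure_mono
    apply sup_le
    · exact le_sup_of_le_left (Submodule.le_topologicalClosure _)
    · apply le_sup_of_le_right
      rw [Submodule.span_le]
      rintro _ ⟨k, rfl⟩
      simp only [SetLike.mem_coe, Submodule.mem_iInf, LinearMap.mem_ker]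
      intro n
      exact hfy n k

end Pool.Agent.Results.MP_b3b95b_an.DenseSum
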